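import Pool.Agent.Lib.MP_c5838f_co.H61.Main
import Pool.Agent.Lib.MP_c5838f_co.SP.Fin

/-!
# The chromatic number of unit ball packings grows superpolynomially

`IsPacking B` says that the closed unit balls centred at the points of the finite set `B ⊂ ℝⁿ` have
pairwise disjoint interiors; `touchingGraph B` is the graph on `B` whose edges are the pairs of
touching balls.
-/

set_option autoImplicit false

namespace Pool.Agent.Results.MP_c5838f_co.SuperpolynomialLowerBound

/-- The finite set `B` of centres is an `n`-packing: closed unit balls centred at distinct points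
of `B` have disjoint interiors, i.e. their centres are at distance at least `2`. -/
def IsPacking {n : ℕ} (B : Finset (EuclideanSpace ℝ (Fin n))) : Prop :=
  ∀ x ∈ B, ∀ y ∈ B, x ≠ y → 2 ≤ dist x y

/-- The touching graph: vertices are the balls (centres in `B`), edges are the pairs of balls whose
centres are at distance exactly `2`. -/
def touchingGraph {n : ℕ} (B : Finset (EuclideanSpace ℝ (Fin n))) : SimpleGraph {x // x ∈ B} where
  Adj x y := dist x.1 y.1 = 2
  symm := ⟨fun x y h => by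
    rw [dist_comm]; exact h⟩
  loopless := ⟨fun x h => by
    have h' : dist x.1 x.1 = 2 := h
    rw [dist_self] at h'
    norm_num at h'⟩

open Classical in
/-- Extend a colouring of the balls of `B` to a function on all points. -/
lemma extend_colouring {n m : ℕ} {B : Finset (EuclideanSpace ℝ (Fin n))} (hB : B.Nonempty)
    (h : (touchingGraph B).Colorable m) :
    ∃ col : EuclideanSpace ℝ (Fin n) → Fin m,
      ∀ x ∈ B, ∀ y ∈ B, dist x y = 2 → col x ≠ col y := by
  obtain ⟨C⟩ := h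
  obtain ⟨b, hb⟩ := hB
  refine ⟨fun x => if hx : x ∈ B then C ⟨x, hx⟩ else C ⟨b, hb⟩, ?_⟩
  intro x hx y hy hxy
  simp only [hx, hy, dif_pos]
  exact C.valid (v := ⟨x, hx⟩) (w := ⟨y, hy⟩) hxy

/-- **Superpolynomial lower bound.**
(1) For all large `n` some `n`-packing of unit balls needs at least
`exp ((log n)² / (100 log log n))` colours.
(2) For `D ≥ 1`, a prime `p ≥ 2 (4D)^(4D)` and every `n ≥ p³`, some `n`-packing needs at least
`(p / (96 D))^D / 96` colours.
(3) For every `n ≥ 2` some `n`-packing needs at least `n^(3/2) / 30` colours.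
(4) In dimension `6 · 4^k` there is a packing for which `m` colours suffice only if
`16^(k+1) ≤ m (2^(k+1) + 2)`. -/
theorem result :
    (∃ N : ℕ, ∀ n : ℕ, N ≤ n → ∃ B : Finset (EuclideanSpace ℝ (Fin n)), IsPacking B ∧
      ∀ m : ℕ, (touchingGraph B).Colorable m →
        Real.exp (Real.log n ^ 2 / (100 * Real.log (Real.log n))) ≤ (m : ℝ)) ∧
    (∀ p D : ℕ, p.Prime → 1 ≤ D → 2 * (4 * D) ^ (4 * D) ≤ p → ∀ n : ℕ, p ^ 3 ≤ n →
      ∃ B : Finset (EuclideanSpace ℝ (Fin n)), IsPacking B ∧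
        ∀ m : ℕ, (touchingGraph B).Colorable m →
          ((p : ℝ) / (96 * (D : ℝ))) ^ D ≤ 96 * (m : ℝ)) ∧
    (∀ n : ℕ, 2 ≤ n → ∃ B : Finset (EuclideanSpace ℝ (Fin n)), IsPacking B ∧
      ∀ m : ℕ, (touchingGraph B).Colorable m → (n : ℝ) ^ (3 / 2 : ℝ) ≤ 30 * (m : ℝ)) ∧
    (∀ k : ℕ, ∃ B : Finset (EuclideanSpace ℝ (Fin (6 * 4 ^ k))), IsPacking B ∧
      ∀ m : ℕ, (touchingGraph B).Colorable m → 16 ^ (k + 1) ≤ m * (2 ^ (k + 1) + 2)) := by
  refine ⟨?_, ?_, fun n hn => ?_, fun k => ?_⟩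
  · exact Lib.MP_c5838f_co.SP.asymptotic
  · intro p D hp hD hpD n hn
    have : Fact p.Prime := ⟨hp⟩
    exact Lib.MP_c5838f_co.SP.explicit p D hD hpD n hn
  · obtain ⟨T, hne, hT, hcol⟩ := Lib.MP_c5838f_co.H61.exists_packing_cube n (by omega)
    refine ⟨T, hT, fun m hm => ?_⟩
    obtain ⟨col, hc⟩ := extend_colouring hne hm
    have h1 := hcol m col hc
    have h2 : (n : ℝ) ^ 3 ≤ (30 * (m : ℝ)) ^ 2 := by
      have : (n : ℝ) ^ 3 ≤ 864 * (m : ℝ) ^ 2 := by exact_mod_cast h1
      nlinarith [sq_nonneg (m : ℝ)]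
    have hn0 : (0 : ℝ) ≤ n := Nat.cast_nonneg n
    have h3 : ((n : ℝ) ^ (3 / 2 : ℝ)) ^ 2 = (n : ℝ) ^ 3 := by
      rw [← Real.rpow_natCast, ← Real.rpow_mul hn0, ← Real.rpow_natCast]
      norm_num
    have h4 : ((n : ℝ) ^ (3 / 2 : ℝ)) ^ 2 ≤ (30 * (m : ℝ)) ^ 2 := by rw [h3]; exact h2
    exact (abs_le_of_sq_le_sq' h4 (by positivity)).2
  · obtain ⟨T, hne, hT, hcol⟩ := Lib.MP_c5838f_co.H61.exists_packing_pow k (6 * 4 ^ k) le_rfl
    refine ⟨T, hT, fun m hm => ?_⟩
    obtain ⟨col, hc⟩ := extend_colouring hne hm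
    exact hcol m col hc

end Pool.Agent.Results.MP_c5838f_co.SuperpolynomialLowerBound
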